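import Pool.Agent.H63.G3.Stm

set_option autoImplicit false

namespace Pool.Agent.H550.G3

open Finset ComplexConjugate Pool.Agent.H63.G3

theorem msym_comp (n : Fin 3 → ℤ) (τ : Equiv.Perm (Fin 3)) : msym (n ∘ τ) = msym n := by
  funext t
  unfold msym
  exact Fintype.sum_equiv (Equiv.mulLeft τ) _ _ (fun σ => rfl)

/-- the determinant character -/
noncomputable def dt (c : ℤ) (t : Fin 3 → ℝ) : ℂ :=
  Complex.exp ((c * (t 0 + t 1 + t 2) : ℝ) * Complex.I)

theorem mon_shift (n : Fin 3 → ℤ) (c : ℤ) (t : Fin 3 → ℝ) :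
    mon (fun i => n i + c) t = mon n t * dt c t := by
  unfold mon dt
  rw [← Complex.exp_add]
  congr 1
  simp only [Fin.sum_univ_three]
  push_cast
  ring

theorem msym_shift (n : Fin 3 → ℤ) (c : ℤ) (t : Fin 3 → ℝ) :
    msym (fun i => n i + c) t = msym n t * dt c t := by
  unfold msym
  rw [Finset.sum_mul]
  exact Finset.sum_congr rfl fun σ _ => mon_shift (n ∘ σ) c t

theorem bas_shift (a b : ℕ) (c d : ℤ) (t : Fin 3 → ℝ) :
    bas a b c t * dt d t = bas a b (c + d) t := by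
  unfold bas dt
  rw [mul_assoc, ← Complex.exp_add]
  congr 2
  push_cast
  ring

/-- the indices -/
def Ix (s : ℕ) (D : ℤ) : Set (ℕ × ℕ × ℤ) :=
  {q | q.1 ≤ s ∧ q.2.1 ≤ s ∧ (q.1 : ℤ) - q.2.1 + 3 * q.2.2 = D}

/-- the functions -/
noncomputable def bf (q : ℕ × ℕ × ℤ) : (Fin 3 → ℝ) → ℂ := bas q.1 q.2.1 q.2.2

/-- the span -/
noncomputable def Sp (s : ℕ) (D : ℤ) : Submodule ℂ ((Fin 3 → ℝ) → ℂ) :=
  Submodule.span ℂ (bf '' Ix s D)

theorem Sp_mono {s s' : ℕ} (h : s ≤ s') (D : ℤ) : Sp s D ≤ Sp s' D := by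
  refine Submodule.span_mono (Set.image_mono ?_)
  rintro q ⟨h1, h2, h3⟩
  exact ⟨h1.trans h, h2.trans h, h3⟩

theorem Sp_shift {s : ℕ} {D : ℤ} {F : (Fin 3 → ℝ) → ℂ} (h : F ∈ Sp s D) (c : ℤ) :
    (fun t => F t * dt c t) ∈ Sp s (D + 3 * c) := by
  unfold Sp at h
  induction h using Submodule.span_induction with
  | mem x hx =>
    obtain ⟨q, ⟨h1, h2, h3⟩, rfl⟩ := hx
    refine Submodule.subset_span ⟨(q.1, q.2.1, q.2.2 + c), ⟨h1, h2, ?_⟩, ?_⟩
    · show (q.1 : ℤ) - q.2.1 + 3 * (q.2.2 + c) = D + 3 * c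
      linarith
    · funext t
      exact (bas_shift _ _ _ _ t).symm
  | zero =>
    have : (fun t => (0 : (Fin 3 → ℝ) → ℂ) t * dt c t) = 0 := by
      funext t
      simp
    rw [this]
    exact Submodule.zero_mem _
  | add x y _ _ hx hy =>
    have : (fun t => (x + y) t * dt c t) = (fun t => x t * dt c t) + (fun t => y t * dt c t) := by
      funext t
      simp [add_mul]
    rw [this]
    exact Submodule.add_mem _ hx hy
  | smul r x _ hx =>
    have : (fun t => (r • x) t * dt c t) = r • (fun t => x t * dt c t) := by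
      funext t
      simp [mul_assoc]
    rw [this]
    exact Submodule.smul_mem _ _ hx

theorem exists_of_mem {s : ℕ} {D : ℤ} {F : (Fin 3 → ℝ) → ℂ} (h : F ∈ Sp s D) :
    ∃ (T : Finset (ℕ × ℕ × ℤ)) (f : ℕ × ℕ × ℤ → ℂ),
    (∀ q ∈ T, q.1 ≤ s ∧ q.2.1 ≤ s ∧ (q.1 : ℤ) - q.2.1 + 3 * q.2.2 = D) ∧
    ∀ t, F t = ∑ q ∈ T, f q * bas q.1 q.2.1 q.2.2 t := by
  unfold Sp at h
  rw [Finsupp.mem_span_image_iff_linearCombination] at h
  obtain ⟨l, hl, rfl⟩ := h
  refine ⟨l.support, l, fun q hq => ?_, fun t => ?_⟩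
  · exact (Finsupp.mem_supported ℂ l).1 hl hq
  · rw [Finsupp.linearCombination_apply, Finsupp.sum, Finset.sum_apply]
    rfl

/-- exponents of degree `a` -/
def Ex (a : ℕ) : Finset (Fin 3 → ℕ) := Finset.piAntidiag univ a

theorem mem_Ex {a : ℕ} {f : Fin 3 → ℕ} : f ∈ Ex a ↔ f 0 + f 1 + f 2 = a := by
  unfold Ex
  rw [Finset.mem_piAntidiag, Fin.sum_univ_three]
  simp

theorem hc_eq (a : ℕ) (x : Fin 3 → ℂ) : hc a x = ∑ i ∈ Ex a, ∏ k, x k ^ i k := by
  unfold hc
  refine Finset.sum_nbij' (fun p => ![a - p.1 - p.2, p.1, p.2]) (fun f => (f 1, f 2)) ?_ ?_ ?_ ?_ ?_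
  · rintro ⟨j, k⟩ hp
    have h := (Finset.mem_filter.1 hp).2
    rw [mem_Ex]
    show a - j - k + j + k = a
    have : j + k ≤ a := h
    omega
  · intro f hf
    rw [mem_Ex] at hf
    refine Finset.mem_filter.2 ⟨Finset.mem_product.2 ⟨Finset.mem_range.2 ?_, Finset.mem_range.2 ?_⟩, ?_⟩
    · show f 1 < a + 1
      omega
    · show f 2 < a + 1
      omega
    · show f 1 + f 2 ≤ a
      omega
  · rintro ⟨j, k⟩ _
    rfl
  · intro f hf
    rw [mem_Ex] at hf
    funext i
    fin_cases i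
    · show a - f 1 - f 2 = f 0
      omega
    · rfl
    · rfl
  · rintro ⟨j, k⟩ _
    rw [Fin.prod_univ_three]
    rfl

theorem mon_prod (i j : Fin 3 → ℕ) (t : Fin 3 → ℝ) :
    (∏ k, ex t k ^ i k) * conj (∏ k, ex t k ^ j k) = mon (fun k => (i k : ℤ) - j k) t := by
  unfold mon ex
  simp only [Fin.prod_univ_three, Fin.sum_univ_three, ← Complex.exp_nat_mul, ← Complex.exp_add,
    ← Complex.exp_conj]
  congr 1
  simp only [map_add, map_mul, map_natCast, Complex.conj_ofReal, Complex.conj_I]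
  push_cast
  ring

theorem bas_zero (a b : ℕ) (t : Fin 3 → ℝ) :
    bas a b 0 t = ∑ x ∈ Ex a ×ˢ Ex b, mon (fun k => (x.1 k : ℤ) - x.2 k) t := by
  unfold bas
  rw [hc_eq, hc_eq, map_sum, Finset.sum_mul_sum, ← Finset.sum_product']
  simp only [Int.cast_zero, zero_mul, Complex.ofReal_zero, Complex.exp_zero, mul_one]
  exact Finset.sum_congr rfl fun x _ => mon_prod x.1 x.2 t

theorem Ex_comp {a : ℕ} (σ : Equiv.Perm (Fin 3)) {f : Fin 3 → ℕ} (hf : f ∈ Ex a) : f ∘ σ ∈ Ex a := by
  rw [mem_Ex, ← Fin.sum_univ_three] at *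
  rw [← hf]
  exact Equiv.sum_comp σ f

theorem six_bas (a b : ℕ) :
    (6 : ℂ) • bas a b 0 = ∑ x ∈ Ex a ×ˢ Ex b, msym (fun k => (x.1 k : ℤ) - x.2 k) := by
  funext t
  rw [Finset.sum_apply]
  unfold msym
  rw [Finset.sum_comm]
  have h : ∀ σ ∈ (univ : Finset (Equiv.Perm (Fin 3))),
      ∑ x ∈ Ex a ×ˢ Ex b, mon ((fun k => (x.1 k : ℤ) - x.2 k) ∘ σ) t = bas a b 0 t := by
    intro σ _
    rw [bas_zero]
    refine Finset.sum_nbij' (fun x => (x.1 ∘ σ, x.2 ∘ σ)) (fun x => (x.1 ∘ σ.symm, x.2 ∘ σ.symm))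
      ?_ ?_ ?_ ?_ ?_
    · intro x hx
      rw [Finset.mem_product] at *
      exact ⟨Ex_comp σ hx.1, Ex_comp σ hx.2⟩
    · intro x hx
      rw [Finset.mem_product] at *
      exact ⟨Ex_comp σ.symm hx.1, Ex_comp σ.symm hx.2⟩
    · intro x _
      refine Prod.ext ?_ ?_ <;> (funext i; simp)
    · intro x _
      refine Prod.ext ?_ ?_ <;> (funext i; simp)
    · intro x _
      rfl
  rw [Finset.sum_congr rfl h, Finset.sum_const, Finset.card_univ, Fintype.card_perm, Fintype.card_fin]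
  simp [Nat.factorial]

theorem perm_exists : ∀ p q : Fin 3, p ≠ q → ∃ σ : Equiv.Perm (Fin 3), σ 0 = p ∧ σ 2 = q := by
  decide

/-- the extremal exponent -/
def ev (a b : ℤ) : Fin 3 → ℤ := ![a, 0, -b]

theorem msym_ev {a b : ℤ} {w : Fin 3 → ℤ} {p q : Fin 3} (hpq : p ≠ q) (hp : w p = a) (hq : w q = -b)
    (hr : ∀ r, r ≠ p → r ≠ q → w r = 0) : msym w = msym (ev a b) := by
  obtain ⟨σ, h0, h2⟩ := perm_exists p q hpq
  rw [← msym_comp w σ]
  congr 1
  funext i
  fin_cases i
  · show w (σ 0) = a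
    rw [h0, hp]
  · show w (σ 1) = 0
    refine hr _ ?_ ?_
    · rw [← h0]
      exact fun h => absurd (σ.injective h) (by decide)
    · rw [← h2]
      exact fun h => absurd (σ.injective h) (by decide)
  · show w (σ 2) = -b
    rw [h2, hq]

theorem Ex_le {a : ℕ} {f : Fin 3 → ℕ} (hf : f ∈ Ex a) (p : Fin 3) : f p ≤ a := by
  rw [mem_Ex] at hf
  fin_cases p
  · show f 0 ≤ a
    omega
  · show f 1 ≤ a
    omega
  · show f 2 ≤ a
    omega

theorem Ex_eq {a : ℕ} {f : Fin 3 → ℕ} (hf : f ∈ Ex a) {p : Fin 3} (hp : f p = a) (r : Fin 3)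
    (hr : r ≠ p) : f r = 0 := by
  rw [mem_Ex, ← Fin.sum_univ_three, ← Finset.add_sum_erase _ _ (Finset.mem_univ p), hp] at hf
  have h0 : ∑ x ∈ univ.erase p, f x = 0 := by omega
  exact (Finset.sum_eq_zero_iff.1 h0) r (Finset.mem_erase.2 ⟨hr, Finset.mem_univ _⟩)

theorem main (s : ℕ) : ∀ n : Fin 3 → ℤ, (∀ i j, n i - n j ≤ s) → msym n ∈ Sp s (n 0 + n 1 + n 2) := by
  classical
  induction s with
  | zero =>
    intro n hn
    have e : n = fun i => (ev 0 0) i + n 0 := by
      funext i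
      have h1 := hn i 0
      have h2 := hn 0 i
      have h3 : ev 0 0 i = 0 := by
        fin_cases i <;> rfl
      rw [h3]
      push_cast at h1 h2
      omega
    have h6 : msym (ev 0 0) = (6 : ℂ) • bas 0 0 0 := by
      rw [six_bas]
      have : Ex 0 ×ˢ Ex 0 = {((fun _ => 0, fun _ => 0) : (Fin 3 → ℕ) × (Fin 3 → ℕ))} := by
        ext x
        rw [Finset.mem_product, mem_Ex, mem_Ex, Finset.mem_singleton]
        constructor
        · rintro ⟨h1, h2⟩
          refine Prod.ext ?_ ?_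
          · funext i
            fin_cases i
            · show x.1 0 = 0
              omega
            · show x.1 1 = 0
              omega
            · show x.1 2 = 0
              omega
          · funext i
            fin_cases i
            · show x.2 0 = 0
              omega
            · show x.2 1 = 0
              omega
            · show x.2 2 = 0
              omega
        · rintro rfl
          exact ⟨rfl, rfl⟩
      rw [this, Finset.sum_singleton]
      congr 1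
      funext i
      fin_cases i <;> rfl
    have hm : msym (ev 0 0) ∈ Sp 0 0 := by
      rw [h6]
      exact Submodule.smul_mem _ _ (Submodule.subset_span ⟨(0, 0, 0), ⟨le_rfl, le_rfl, by simp⟩, rfl⟩)
    have h := Sp_shift hm (n 0)
    have e1 : (fun t => msym (ev 0 0) t * dt (n 0) t) = msym n := by
      conv_rhs => rw [e]
      funext t
      exact (msym_shift _ _ t).symm
    have e2 : n 0 + n 1 + n 2 = 0 + 3 * n 0 := by
      have h1 := hn 1 0
      have h2 := hn 0 1
      have h3 := hn 2 0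
      have h4 := hn 0 2
      push_cast at h1 h2 h3 h4
      omega
    rw [e1] at h
    rw [e2]
    exact h
  | succ s ih =>
    intro n hn
    by_cases hlt : ∀ i j, n i - n j ≤ s
    · exact Sp_mono (Nat.le_succ s) _ (ih n hlt)
    push Not at hlt
    obtain ⟨p, q, hpq⟩ := hlt
    have hs : n p - n q = (s + 1 : ℕ) := le_antisymm (hn p q) (by push_cast; omega)
    have hne : p ≠ q := by
      rintro rfl
      rw [sub_self] at hs
      push_cast at hs
      omega
    obtain ⟨σ, h0, h2⟩ := perm_exists p q hne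
    -- the degrees
    have hm1 := hn (σ 1) q
    have hm2 := hn p (σ 1)
    obtain ⟨a, ha⟩ := Int.eq_ofNat_of_zero_le (show 0 ≤ n p - n (σ 1) by omega)
    obtain ⟨b, hb⟩ := Int.eq_ofNat_of_zero_le (show 0 ≤ n (σ 1) - n q by omega)
    have hab : a + b = s + 1 := by
      have : (a : ℤ) + b = (s + 1 : ℕ) := by
        rw [← hs]
        omega
      exact_mod_cast this
    -- the extremal case
    have key : msym (ev a b) ∈ Sp (s + 1) ((a : ℤ) - b) := by
      set G := (Ex a ×ˢ Ex b).filter fun x => ∃ p q : Fin 3,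
        ((x.1 p : ℤ) - x.2 p) - ((x.1 q : ℤ) - x.2 q) = (s + 1 : ℕ) with hG
      have hsum := six_bas a b
      rw [← Finset.sum_filter_add_sum_filter_not (Ex a ×ˢ Ex b) (fun x => ∃ p q : Fin 3,
        ((x.1 p : ℤ) - x.2 p) - ((x.1 q : ℤ) - x.2 q) = (s + 1 : ℕ)), ← hG] at hsum
      have hGs : ∑ x ∈ G, msym (fun k => (x.1 k : ℤ) - x.2 k) = (G.card : ℂ) • msym (ev a b) := by
        rw [Finset.sum_congr rfl (g := fun _ => msym (ev a b)), Finset.sum_const, Nat.cast_smul_eq_nsmul]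
        intro x hx
        rw [hG, Finset.mem_filter, Finset.mem_product] at hx
        obtain ⟨⟨hx1, hx2⟩, p', q', h⟩ := hx
        have l1 := Ex_le hx1 p'
        have l2 := Ex_le hx2 q'
        have e1 : x.1 p' = a := by omega
        have e2 : x.2 q' = b := by omega
        have e3 : x.1 q' = 0 := by omega
        have e4 : x.2 p' = 0 := by omega
        have hne' : p' ≠ q' := by
          rintro rfl
          omega
        refine msym_ev hne' (a := a) (b := b) ?_ ?_ ?_
        · show (x.1 p' : ℤ) - x.2 p' = a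
          rw [e1, e4]
          simp
        · show (x.1 q' : ℤ) - x.2 q' = -b
          rw [e2, e3]
          simp
        · intro r hr1 hr2
          show (x.1 r : ℤ) - x.2 r = 0
          rw [Ex_eq hx1 e1 r hr1, Ex_eq hx2 e2 r hr2]
          simp
      have hR : ∑ x ∈ (Ex a ×ˢ Ex b).filter (fun x => ¬ ∃ p q : Fin 3,
          ((x.1 p : ℤ) - x.2 p) - ((x.1 q : ℤ) - x.2 q) = (s + 1 : ℕ)),
          msym (fun k => (x.1 k : ℤ) - x.2 k) ∈ Sp (s + 1) ((a : ℤ) - b) := by
        refine Submodule.sum_mem _ fun x hx => ?_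
        rw [Finset.mem_filter, Finset.mem_product] at hx
        obtain ⟨⟨hx1, hx2⟩, h⟩ := hx
        have hd : ((x.1 0 : ℤ) - x.2 0) + ((x.1 1 : ℤ) - x.2 1) + ((x.1 2 : ℤ) - x.2 2) = (a : ℤ) - b := by
          have g1 := mem_Ex.1 hx1
          have g2 := mem_Ex.1 hx2
          omega
        rw [← hd]
        refine Sp_mono (Nat.le_succ s) _ (ih (fun k => (x.1 k : ℤ) - x.2 k) fun i j => ?_)
        have l1 := Ex_le hx1 i
        have l2 := Ex_le hx2 j
        have l3 : ((x.1 i : ℤ) - x.2 i) - ((x.1 j : ℤ) - x.2 j) ≠ (s + 1 : ℕ) := fun h' => h ⟨i, j, h'⟩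
        show ((x.1 i : ℤ) - x.2 i) - ((x.1 j : ℤ) - x.2 j) ≤ s
        push_cast at l3
        omega
      have hGpos : (G.card : ℂ) ≠ 0 := by
        rw [Nat.cast_ne_zero]
        refine (Finset.card_pos.2 ⟨(![a, 0, 0], ![0, 0, b]), ?_⟩).ne'
        rw [hG, Finset.mem_filter, Finset.mem_product, mem_Ex, mem_Ex]
        refine ⟨⟨?_, ?_⟩, 0, 2, ?_⟩
        · show a + 0 + 0 = a
          rfl
        · show 0 + 0 + b = b
          omega
        · show ((a : ℤ) - (0 : ℕ)) - (((0 : ℕ) : ℤ) - b) = (s + 1 : ℕ)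
          omega
      rw [hGs] at hsum
      have hB : bas a b 0 ∈ Sp (s + 1) ((a : ℤ) - b) :=
        Submodule.subset_span ⟨(a, b, 0), ⟨by show a ≤ s + 1; omega, by show b ≤ s + 1; omega, by simp⟩, rfl⟩
      have hfin : msym (ev a b) = (G.card : ℂ)⁻¹ • ((6 : ℂ) • bas a b 0 -
          ∑ x ∈ (Ex a ×ˢ Ex b).filter (fun x => ¬ ∃ p q : Fin 3,
          ((x.1 p : ℤ) - x.2 p) - ((x.1 q : ℤ) - x.2 q) = (s + 1 : ℕ)),
          msym (fun k => (x.1 k : ℤ) - x.2 k)) := by
        rw [hsum, add_sub_cancel_right, smul_smul, inv_mul_cancel₀ hGpos, one_smul]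
      rw [hfin]
      exact Submodule.smul_mem _ _ (Submodule.sub_mem _ (Submodule.smul_mem _ _ hB) hR)
    -- the reduction
    have h := Sp_shift key (n (σ 1))
    have e1 : (fun t => msym (ev a b) t * dt (n (σ 1)) t) = msym n := by
      rw [← msym_comp n σ]
      have e : n ∘ σ = fun i => (ev a b) i + n (σ 1) := by
        funext i
        fin_cases i
        · show n (σ 0) = a + n (σ 1)
          rw [h0]
          omega
        · show n (σ 1) = 0 + n (σ 1)
          omega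
        · show n (σ 2) = -b + n (σ 1)
          rw [h2]
          omega
      rw [e]
      funext t
      exact (msym_shift _ _ t).symm
    have e2 : n 0 + n 1 + n 2 = (a : ℤ) - b + 3 * n (σ 1) := by
      rw [← Fin.sum_univ_three, ← Equiv.sum_comp σ n, Fin.sum_univ_three, h0, h2]
      omega
    rw [e1] at h
    rw [e2]
    exact h

theorem t_span : S_SPAN := fun s n hn => exists_of_mem (main s n hn)

end Pool.Agent.H550.G3
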